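import Pool.Agent.CPT.StmtsD
import Pool.Agent.Helper77_CPT.SPC

/-!
CPT, the core of the border version: independence of the logarithmic derivatives goes up from the
limit to the generic fibre.
-/

set_option autoImplicit false

namespace Pool.Agent.CPT.H34

open MvPolynomial Pool.Agent.CPT.H77

variable {E : Type} [Field E] {n : ℕ}

/-- The limit `ε = 0`. -/
noncomputable def dn (E : Type) [Field E] (n : ℕ) :
    MvPolynomial (Fin n) (Polynomial E) →+* MvPolynomial (Fin n) E :=
  MvPolynomial.map (Polynomial.evalRingHom 0)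

/-- The generic fibre. -/
noncomputable def up (E : Type) [Field E] (n : ℕ) :
    MvPolynomial (Fin n) (Polynomial E) →+* MvPolynomial (Fin n) (FractionRing (Polynomial E)) :=
  MvPolynomial.map (algebraMap (Polynomial E) (FractionRing (Polynomial E)))

theorem up_inj {F G : MvPolynomial (Fin n) (Polynomial E)} (h : up E n F = up E n G) : F = G :=
  MvPolynomial.map_injective _
    (IsFractionRing.injective (Polynomial E) (FractionRing (Polynomial E))) h

theorem dn_C (a : Polynomial E) : dn E n (C a) = C (Polynomial.eval 0 a) := by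
  unfold dn
  rw [map_C]
  rfl

theorem dn_X (i : Fin n) : dn E n (X i) = X i := by
  unfold dn
  rw [map_X]

theorem up_C (a : Polynomial E) :
    up E n (C a) = C (algebraMap (Polynomial E) (FractionRing (Polynomial E)) a) := by
  unfold up
  rw [map_C]

theorem up_X (i : Fin n) : up E n (X i) = X i := by
  unfold up
  rw [map_X]

theorem dn_pderiv (i : Fin n) (F : MvPolynomial (Fin n) (Polynomial E)) :
    dn E n (pderiv i F) = pderiv i (dn E n F) := by
  unfold dn
  rw [pderiv_map]

theorem up_pderiv (i : Fin n) (F : MvPolynomial (Fin n) (Polynomial E)) :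
    up E n (pderiv i F) = pderiv i (up E n F) := by
  unfold up
  rw [pderiv_map]

theorem dn_lift (p : MvPolynomial (Fin n) E) :
    dn E n (MvPolynomial.map Polynomial.C p) = p := by
  unfold dn
  rw [map_map]
  have h : (Polynomial.evalRingHom (0 : E)).comp Polynomial.C = RingHom.id E := by
    ext a
    show Polynomial.eval 0 (Polynomial.C a) = a
    rw [Polynomial.eval_C]
  rw [h, map_id]

theorem up_ne {G : MvPolynomial (Fin n) (Polynomial E)} (h : dn E n G ≠ 0) : up E n G ≠ 0 := by
  intro h1
  apply h
  rw [up_inj (h1.trans (map_zero (up E n)).symm), map_zero]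

theorem dvd_of_dn {R : MvPolynomial (Fin n) (Polynomial E)} (h : dn E n R = 0) :
    C Polynomial.X ∣ R := by
  rw [C_dvd_iff_dvd_coeff]
  intro α
  rw [Polynomial.X_dvd_iff, Polynomial.coeff_zero_eq_eval_zero]
  have h1 := congrArg (coeff α) h
  unfold dn at h1
  rw [coeff_map, coeff_zero] at h1
  exact h1

/-- pairs of values -/
def GoodE (G : MvPolynomial (Fin n) (Polynomial E)) (z : KK n (FractionRing (Polynomial E)))
    (w : KK n E) : Prop :=
  ∃ (A : ℕ) (H : MvPolynomial (Fin n) (Polynomial E)), al (up E n H) = al (up E n G) ^ A * z ∧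
    al (dn E n H) = al (dn E n G) ^ A * w

theorem goodE_al (G : MvPolynomial (Fin n) (Polynomial E))
    (s : MvPolynomial (Fin n) (Polynomial E)) : GoodE G (al (up E n s)) (al (dn E n s)) :=
  ⟨0, s, by rw [pow_zero, one_mul], by rw [pow_zero, one_mul]⟩

theorem goodE_L {G : MvPolynomial (Fin n) (Polynomial E)} (h : dn E n G ≠ 0) (i : Fin n) :
    GoodE G (L (up E n G) i) (L (dn E n G) i) := by
  refine ⟨1, pderiv i G, ?_, ?_⟩
  · rw [pow_one, L, mul_div_cancel₀ _ (al_ne (up_ne h)), up_pderiv]
  · rw [pow_one, L, mul_div_cancel₀ _ (al_ne h), dn_pderiv]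

theorem goodE_add {G : MvPolynomial (Fin n) (Polynomial E)}
    {z z' : KK n (FractionRing (Polynomial E))} {w w' : KK n E}
    (h : GoodE G z w) (h' : GoodE G z' w') : GoodE G (z + z') (w + w') := by
  obtain ⟨A, H, h1, h2⟩ := h
  obtain ⟨A', H', h1', h2'⟩ := h'
  refine ⟨A + A', H * G ^ A' + H' * G ^ A, ?_, ?_⟩
  · rw [map_add, map_mul, map_mul, map_pow, map_pow, al_add, al_mul, al_mul, al_pow, al_pow, h1,
      h1']
    ring
  · rw [map_add, map_mul, map_mul, map_pow, map_pow, al_add, al_mul, al_mul, al_pow, al_pow, h2,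
      h2']
    ring

theorem goodE_mul {G : MvPolynomial (Fin n) (Polynomial E)}
    {z z' : KK n (FractionRing (Polynomial E))} {w w' : KK n E}
    (h : GoodE G z w) (h' : GoodE G z' w') : GoodE G (z * z') (w * w') := by
  obtain ⟨A, H, h1, h2⟩ := h
  obtain ⟨A', H', h1', h2'⟩ := h'
  refine ⟨A + A', H * H', ?_, ?_⟩
  · rw [map_mul, al_mul, h1, h1']
    ring
  · rw [map_mul, al_mul, h2, h2']
    ring

theorem goodE_zero {G : MvPolynomial (Fin n) (Polynomial E)} (hG : dn E n G ≠ 0) {w : KK n E}
    (h : GoodE G 0 w) : w = 0 := by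
  obtain ⟨A, H, h1, h2⟩ := h
  rw [mul_zero, ← al_zero] at h1
  have h4 : H = 0 := up_inj ((al_inj h1).trans (map_zero (up E n)).symm)
  rw [h4, map_zero, al_zero] at h2
  rcases mul_eq_zero.1 h2.symm with h3 | h3
  · exact absurd h3 (pow_ne_zero _ (al_ne hG))
  · exact h3

theorem goodE_aeval {G : MvPolynomial (Fin n) (Polynomial E)} (h : dn E n G ≠ 0)
    (R : MvPolynomial (Fin n) (Polynomial E)) :
    GoodE G (aeval (L (up E n G)) (up E n R)) (aeval (L (dn E n G)) (dn E n R)) := by
  induction R using MvPolynomial.induction_on with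
  | C a =>
    have h1 := goodE_al G (C a)
    rw [dn_C, up_C] at h1 ⊢
    rw [aeval_C, aeval_C]
    exact h1
  | add p q hp hq =>
    rw [map_add, map_add, map_add, map_add]
    exact goodE_add hp hq
  | mul_X p j hp =>
    rw [map_mul, map_mul, map_mul, map_mul]
    refine goodE_mul hp ?_
    rw [up_X, dn_X, aeval_X, aeval_X]
    exact goodE_L h j

/-- clearing the denominators -/
theorem clear1 (R : MvPolynomial (Fin n) (FractionRing (Polynomial E))) :
    ∃ d : Polynomial E, d ≠ 0 ∧ ∃ R0 : MvPolynomial (Fin n) (Polynomial E),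
      up E n R0 = up E n (C d) * R := by
  induction R using MvPolynomial.induction_on with
  | C a =>
    obtain ⟨p, q, hq, h⟩ := IsFractionRing.div_surjective (Polynomial E) a
    refine ⟨q, nonZeroDivisors.ne_zero hq, C p, ?_⟩
    rw [up_C, up_C, ← C_mul, ← h, mul_div_cancel₀]
    intro h1
    exact nonZeroDivisors.ne_zero hq
      (IsFractionRing.injective (Polynomial E) (FractionRing (Polynomial E))
        (h1.trans (map_zero _).symm))
  | add p q hp hq =>
    obtain ⟨d, hd, R, hR⟩ := hp
    obtain ⟨d', hd', R', hR'⟩ := hq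
    refine ⟨d * d', mul_ne_zero hd hd', C d' * R + C d * R', ?_⟩
    rw [map_add, map_mul, map_mul, hR, hR', C_mul, map_mul]
    ring
  | mul_X p j hp =>
    obtain ⟨d, hd, R, hR⟩ := hp
    refine ⟨d, hd, R * X j, ?_⟩
    rw [map_mul, hR, up_X, mul_assoc]

theorem clear {N : ℕ} (R : Fin N → MvPolynomial (Fin n) (FractionRing (Polynomial E))) :
    ∃ d : Polynomial E, d ≠ 0 ∧ ∃ R0 : Fin N → MvPolynomial (Fin n) (Polynomial E),
      ∀ j, up E n (R0 j) = up E n (C d) * R j := by
  classical
  choose d hd R0 hR0 using fun j => clear1 (R j)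
  refine ⟨∏ j, d j, Finset.prod_ne_zero_iff.2 fun j _ => hd j,
    fun j => C (∏ k ∈ Finset.univ.erase j, d k) * R0 j, fun j => ?_⟩
  rw [map_mul, hR0 j, ← Finset.mul_prod_erase Finset.univ d (Finset.mem_univ j), C_mul, map_mul]
  ring

theorem bri_aux (E : Type) [Field E] (n N : ℕ) (G : MvPolynomial (Fin n) (Polynomial E))
    (hG : dn E n G ≠ 0) (hI : Ind E n (L (dn E n G)) N) :
    Ind (FractionRing (Polynomial E)) n (L (up E n G)) N := by
  obtain ⟨m, hm⟩ := hI
  rw [lip E (KK n E) n N (L (dn E n G)) m] at hm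
  obtain ⟨b, hb⟩ := IsLocalization.exist_integer_multiples_of_finite
    (nonZeroDivisors (MvPolynomial (Fin n) E)) m
  choose p hp using hb
  have hb0 : al (b : MvPolynomial (Fin n) E) ≠ 0 := al_ne (nonZeroDivisors.ne_zero b.2)
  have hp' : ∀ j, al (p j) = al (b : MvPolynomial (Fin n) E) * m j := by
    intro j
    rw [al, hp j, Algebra.smul_def]
    rfl
  refine ⟨fun j => al (up E n (MvPolynomial.map Polynomial.C (p j))), ?_⟩
  rw [lip (FractionRing (Polynomial E)) (KK n (FractionRing (Polynomial E))) n N (L (up E n G))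
    (fun j => al (up E n (MvPolynomial.map Polynomial.C (p j))))]
  -- one step
  have hX : (C Polynomial.X : MvPolynomial (Fin n) (Polynomial E)) ≠ 0 := by
    rw [Ne, C_eq_zero]
    exact Polynomial.X_ne_zero
  have hU : ¬ IsUnit (C Polynomial.X : MvPolynomial (Fin n) (Polynomial E)) := by
    intro h
    have h1 := h.map (dn E n)
    rw [dn_C, Polynomial.eval_X, C_0] at h1
    exact not_isUnit_zero h1
  have hal : al (up E n (C Polynomial.X)) ≠ 0 := al_ne fun h =>
    hX (up_inj (h.trans (map_zero (up E n)).symm))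
  have step : ∀ R : Fin N → MvPolynomial (Fin n) (Polynomial E),
      ∑ j, al (up E n (MvPolynomial.map Polynomial.C (p j))) *
        aeval (L (up E n G)) (up E n (R j)) = 0 →
      ∃ R' : Fin N → MvPolynomial (Fin n) (Polynomial E), (∀ j, R j = C Polynomial.X * R' j) ∧
        ∑ j, al (up E n (MvPolynomial.map Polynomial.C (p j))) *
          aeval (L (up E n G)) (up E n (R' j)) = 0 := by
    intro R hR
    have hg : ∀ s : Finset (Fin N),
        GoodE G (∑ j ∈ s, al (up E n (MvPolynomial.map Polynomial.C (p j))) *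
          aeval (L (up E n G)) (up E n (R j)))
        (∑ j ∈ s, al (p j) * aeval (L (dn E n G)) (dn E n (R j))) := by
      intro s
      classical
      induction s using Finset.induction_on with
      | empty =>
        rw [Finset.sum_empty, Finset.sum_empty]
        have h1 := goodE_al G 0
        rw [map_zero, map_zero, al_zero, al_zero] at h1
        exact h1
      | insert a s ha ih =>
        rw [Finset.sum_insert ha, Finset.sum_insert ha]
        refine goodE_add (goodE_mul ?_ (goodE_aeval hG (R a))) ih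
        have h1 := goodE_al G (MvPolynomial.map Polynomial.C (p a))
        rw [dn_lift] at h1
        exact h1
    have h1 := hg Finset.univ
    rw [hR] at h1
    have h2 := goodE_zero hG h1
    have h3 : ∑ j, m j * aeval (L (dn E n G)) (dn E n (R j)) = 0 := by
      have h4 : al (b : MvPolynomial (Fin n) E) *
          ∑ j, m j * aeval (L (dn E n G)) (dn E n (R j)) = 0 := by
        rw [← h2, Finset.mul_sum]
        refine Finset.sum_congr rfl fun j _ => ?_
        rw [hp' j, mul_assoc]
      rcases mul_eq_zero.1 h4 with h5 | h5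
      · exact absurd h5 hb0
      · exact h5
    have h4 := hm (fun j => dn E n (R j)) h3
    have h5 : ∀ j, C Polynomial.X ∣ R j := fun j => dvd_of_dn (congrFun h4 j)
    choose R' hR' using h5
    refine ⟨R', hR', ?_⟩
    have h6 : al (up E n (C Polynomial.X)) *
        ∑ j, al (up E n (MvPolynomial.map Polynomial.C (p j))) *
          aeval (L (up E n G)) (up E n (R' j)) = 0 := by
      rw [← hR, Finset.mul_sum]
      refine Finset.sum_congr rfl fun j _ => ?_
      rw [hR' j, map_mul, map_mul]
      have h7 : aeval (L (up E n G)) (up E n (C Polynomial.X)) = al (up E n (C Polynomial.X)) := by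
        rw [up_C, aeval_C]
        rfl
      rw [h7]
      ring
    rcases mul_eq_zero.1 h6 with h5 | h5
    · exact absurd h5 hal
    · exact h5
  have hdvd : ∀ (μ : ℕ) (R : Fin N → MvPolynomial (Fin n) (Polynomial E)),
      ∑ j, al (up E n (MvPolynomial.map Polynomial.C (p j))) *
        aeval (L (up E n G)) (up E n (R j)) = 0 →
      ∀ j, C Polynomial.X ^ μ ∣ R j := by
    intro μ
    induction μ with
    | zero =>
      intro R _ j
      rw [pow_zero]
      exact one_dvd _
    | succ μ ih =>
      intro R hR j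
      obtain ⟨R', h1, h2⟩ := step R hR
      rw [h1 j, pow_succ']
      exact mul_dvd_mul_left _ (ih R' h2 j)
  intro R hR
  obtain ⟨d, hd, R0, hR0⟩ := clear R
  have hd' : (C d : MvPolynomial (Fin n) (Polynomial E)) ≠ 0 := by
    rw [Ne, C_eq_zero]
    exact hd
  have hd1 : up E n (C d) ≠ 0 := fun h => hd' (up_inj (h.trans (map_zero (up E n)).symm))
  have hR1 : ∑ j, al (up E n (MvPolynomial.map Polynomial.C (p j))) *
      aeval (L (up E n G)) (up E n (R0 j)) = 0 := by
    have h8 : ∑ j, al (up E n (MvPolynomial.map Polynomial.C (p j))) *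
        aeval (L (up E n G)) (up E n (R0 j)) = aeval (L (up E n G)) (up E n (C d)) *
        ∑ j, al (up E n (MvPolynomial.map Polynomial.C (p j))) * aeval (L (up E n G)) (R j) := by
      rw [Finset.mul_sum]
      refine Finset.sum_congr rfl fun j _ => ?_
      rw [hR0 j, map_mul]
      ring
    rw [h8, hR, mul_zero]
  have hR2 : ∀ j, R0 j = 0 := by
    intro j
    by_contra hj
    obtain ⟨k, hk⟩ := FiniteMultiplicity.of_not_isUnit hU hj
    exact hk (hdvd (k + 1) R0 hR1 j)
  funext j
  have h9 := hR0 j
  rw [hR2 j, map_zero] at h9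
  rcases mul_eq_zero.1 h9.symm with h5 | h5
  · exact absurd h5 hd1
  · exact h5

/-- Row BRI. -/
theorem bri : BriStmt := by
  intro E _ n N G hG hI
  exact bri_aux E n N G hG hI

end Pool.Agent.CPT.H34
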