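import Mathlib
import Pool.Agent.CPT.StmtsB

set_option autoImplicit false

/-!
# Squad CPT, row LAU: the key lemma (B1) on Laurent series
-/

namespace Pool.Agent.CPT.H34

open Pool.Agent.CPT

/-- an additive map with the Leibniz rule is a derivation over `ℤ` -/
noncomputable def toD {S : Type} [CommRing S] (D : S →+ S)
    (h : ∀ a b, D (a * b) = a * D b + b * D a) : Derivation ℤ S S :=
  Derivation.mk' D.toIntLinearMap fun a b => h a b

theorem toD_apply {S : Type} [CommRing S] (D : S →+ S)
    (h : ∀ a b, D (a * b) = a * D b + b * D a) (a : S) : toD D h a = D a := rfl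

section laurent

variable {Λ : Type} [Field Λ]

/-- `T d/dT` -/
noncomputable def thetaFun (f : LaurentSeries Λ) : LaurentSeries Λ :=
  ⟨fun m => (m : Λ) * f.coeff m, f.isPWO_support'.mono fun m hm => by
    rw [Function.mem_support] at hm ⊢
    exact right_ne_zero_of_mul hm⟩

theorem coeff_thetaFun (f : LaurentSeries Λ) (m : ℤ) :
    (thetaFun f).coeff m = (m : Λ) * f.coeff m := rfl

theorem support_thetaFun (f : LaurentSeries Λ) : (thetaFun f).support ⊆ f.support := by
  intro m hm
  rw [HahnSeries.mem_support, coeff_thetaFun] at hm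
  exact right_ne_zero_of_mul hm

theorem thetaFun_mul (f g : LaurentSeries Λ) :
    thetaFun (f * g) = f * thetaFun g + g * thetaFun f := by
  ext m
  rw [mul_comm g (thetaFun f), HahnSeries.coeff_add, coeff_thetaFun, HahnSeries.coeff_mul,
    HahnSeries.coeff_mul_right' g.isPWO_support (support_thetaFun g),
    HahnSeries.coeff_mul_left' f.isPWO_support (support_thetaFun f), Finset.mul_sum,
    ← Finset.sum_add_distrib]
  refine Finset.sum_congr rfl fun ij hij => ?_
  rw [Finset.mem_antidiagonal] at hij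
  rw [coeff_thetaFun, coeff_thetaFun, ← hij.2.2, Int.cast_add]
  ring

/-- the Euler derivation as an additive map -/
noncomputable def thetaAdd : LaurentSeries Λ →+ LaurentSeries Λ :=
  AddMonoidHom.mk' thetaFun (fun f g => by
    ext m
    rw [coeff_thetaFun, HahnSeries.coeff_add, HahnSeries.coeff_add, coeff_thetaFun,
      coeff_thetaFun, mul_add])

theorem exists_theta (Λ : Type) [Field Λ] : ∃ D : Derivation ℤ (LaurentSeries Λ) (LaurentSeries Λ),
    ∀ (f : LaurentSeries Λ) (m : ℤ), (D f).coeff m = (m : Λ) * f.coeff m := by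
  refine ⟨{ toFun := thetaFun
            map_add' := (thetaAdd (Λ := Λ)).map_add
            map_smul' := ?_
            map_one_eq_zero' := ?_
            leibniz' := thetaFun_mul }, fun f m => rfl⟩
  · intro n f
    have h := map_zsmul (thetaAdd (Λ := Λ)) n f
    rw [RingHom.id_apply, Algebra.smul_def, eq_intCast, zsmul_eq_mul]
    rw [zsmul_eq_mul, zsmul_eq_mul] at h
    exact h
  · show thetaFun (1 : LaurentSeries Λ) = 0
    ext m
    rw [coeff_thetaFun, HahnSeries.coeff_one, HahnSeries.coeff_zero]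
    split_ifs with h
    · rw [h]; simp
    · simp

/-- the coefficients below `k` vanish -/
def ge (k : ℤ) (g : LaurentSeries Λ) : Prop := ∀ m < k, g.coeff m = 0

theorem ge_order (g : LaurentSeries Λ) : ge g.order g :=
  fun _ hm => HahnSeries.coeff_eq_zero_of_lt_order hm

theorem ge.mono {k l : ℤ} {g : LaurentSeries Λ} (h : ge k g) (hl : l ≤ k) : ge l g :=
  fun m hm => h m (hm.trans_le hl)

theorem ge.le_order {k : ℤ} {g : LaurentSeries Λ} (h : ge k g) (hg : g ≠ 0) : k ≤ g.order := by
  by_contra hlt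
  exact hg (HahnSeries.coeff_order_eq_zero.1 (h _ (not_le.1 hlt)))

theorem ge_zero (k : ℤ) : ge k (0 : LaurentSeries Λ) := fun _ _ => HahnSeries.coeff_zero

theorem ge.mul {k l : ℤ} {g h : LaurentSeries Λ} (hg : ge k g) (hh : ge l h) :
    ge (k + l) (g * h) := by
  by_cases g0 : g = 0
  · rw [g0, zero_mul]
    exact ge_zero _
  by_cases h0 : h = 0
  · rw [h0, mul_zero]
    exact ge_zero _
  refine (ge_order (g * h)).mono ?_
  rw [HahnSeries.order_mul g0 h0]
  exact add_le_add (hg.le_order g0) (hh.le_order h0)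

theorem ge.add {k : ℤ} {g h : LaurentSeries Λ} (hg : ge k g) (hh : ge k h) : ge k (g + h) := by
  intro m hm
  rw [HahnSeries.coeff_add, hg m hm, hh m hm, add_zero]

theorem ge.sub {k : ℤ} {g h : LaurentSeries Λ} (hg : ge k g) (hh : ge k h) : ge k (g - h) := by
  intro m hm
  rw [HahnSeries.coeff_sub, hg m hm, hh m hm, sub_zero]

theorem ge.cancel {k : ℤ} {f g : LaurentSeries Λ} (hf : f ≠ 0) (h : ge k (f * g)) :
    ge (k - f.order) g := by
  by_cases g0 : g = 0
  · rw [g0]
    exact ge_zero _
  refine (ge_order g).mono ?_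
  have h1 := h.le_order (mul_ne_zero hf g0)
  rw [HahnSeries.order_mul hf g0] at h1
  omega

theorem ge_single (k : ℤ) (a : Λ) : ge k (HahnSeries.single k a : LaurentSeries Λ) := by
  intro m hm
  exact HahnSeries.coeff_single_of_ne hm.ne

theorem ge_C (a : Λ) : ge 0 (HahnSeries.C a : LaurentSeries Λ) := ge_single 0 a

end laurent

theorem lau (ldv : LdvStmt) (cha : ChaStmt) : LauStmt := by
  intro E Λ _ _ _ _ n ψ hψ F c M hM x hx0 hdvd hf0 hj
  have : CharZero Λ := charZero_of_injective_algebraMap (algebraMap E Λ).injective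
  obtain ⟨δ, hδ⟩ := hψ
  obtain ⟨θ, hθ⟩ := exists_theta Λ
  obtain ⟨Φ, hΦ⟩ : ∃ Φ, Φ = MvPolynomial.eval₂Hom
    ((HahnSeries.C : Λ →+* LaurentSeries Λ).comp (algebraMap E Λ)) x := ⟨_, rfl⟩
  have hch : ∀ D : Derivation ℤ (LaurentSeries Λ) (LaurentSeries Λ),
      (∀ a : E, D (HahnSeries.C (algebraMap E Λ a)) = 0) →
      D (Φ F) = ∑ i, Φ (MvPolynomial.pderiv i F) * D (x i) := by
    intro D hD
    rw [hΦ]
    exact cha E (LaurentSeries Λ) _ (toD (D : LaurentSeries Λ →+ LaurentSeries Λ)
      fun a b => D.leibniz a b) (fun a => hD a) (n + 1) x F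
  rw [← hΦ] at hf0 ⊢
  simp only [← hΦ] at hj
  obtain ⟨f, hf⟩ : ∃ f, f = Φ F := ⟨_, rfl⟩
  obtain ⟨g, hg⟩ : ∃ g, g = Φ (MvPolynomial.pderiv 0 F) := ⟨_, rfl⟩
  rw [← hf] at hf0 hch ⊢
  rw [← hg]
  simp only [← hf] at hj
  -- the two identities
  obtain ⟨H, hH⟩ : ∃ H : LaurentSeries Λ, H = ∑ j : Fin n, HahnSeries.C (ψ j) * x j.succ := ⟨_, rfl⟩
  have hsum : ∀ D : Derivation ℤ (LaurentSeries Λ) (LaurentSeries Λ),
      (∀ a : E, D (HahnSeries.C (algebraMap E Λ a)) = 0) →
      D f = g * D (x 0) + f * (D H - ∑ j : Fin n, x j.succ * D (HahnSeries.C (ψ j))) := by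
    intro D hD
    rw [hch D hD, Fin.sum_univ_succ, ← hg, hH, map_sum, ← Finset.sum_sub_distrib, Finset.mul_sum]
    congr 1
    refine Finset.sum_congr rfl fun j _ => ?_
    rw [hj j, Derivation.leibniz, smul_eq_mul, smul_eq_mul]
    ring
  by_contra hcon
  have hcon : -(M : ℤ) < (g / f).order := not_le.1 hcon
  have hA : ge (1 - M) (g / f) := (ge_order (g / f)).mono (by omega)
  have hgA : g = f * (g / f) := by
    field_simp
  -- `θ`
  have hθC : ∀ a : Λ, θ (HahnSeries.C a) = 0 := by
    intro a
    ext m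
    rw [hθ, HahnSeries.coeff_zero, HahnSeries.C_apply]
    by_cases hm : m = 0
    · rw [hm]
      simp
    · rw [HahnSeries.coeff_single_of_ne hm, mul_zero]
  have hθx : θ (x 0) = HahnSeries.single (M : ℤ) (M : Λ) := by
    rw [hx0, map_add, hθC, zero_add]
    ext m
    rw [hθ]
    by_cases hm : m = M
    · rw [hm, HahnSeries.coeff_single_same, HahnSeries.coeff_single_same, mul_one, Int.cast_natCast]
    · rw [HahnSeries.coeff_single_of_ne hm, HahnSeries.coeff_single_of_ne hm, mul_zero]
  have e1 : θ f = f * (g / f * HahnSeries.single (M : ℤ) (M : Λ) + θ H) := by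
    rw [hsum θ fun a => hθC _, hθx]
    simp only [hθC, mul_zero, Finset.sum_const_zero, sub_zero]
    rw [mul_add, ← mul_assoc, ← hgA]
  have h1 : ge 1 (g / f * HahnSeries.single (M : ℤ) (M : Λ)) := by
    have := hA.mul (ge_single (M : ℤ) (M : Λ))
    rwa [sub_add_cancel] at this
  have h2 : ge f.order (θ f) := by
    intro m hm
    rw [hθ, HahnSeries.coeff_eq_zero_of_lt_order hm, mul_zero]
  have h3 : ge 0 (g / f * HahnSeries.single (M : ℤ) (M : Λ) + θ H) := by
    rw [e1] at h2
    have := h2.cancel hf0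
    rwa [sub_self] at this
  have h4 : ge 0 (θ H) := by
    have := h3.sub (h1.mono zero_le_one)
    rwa [add_sub_cancel_left] at this
  have h5 : ge 0 H := by
    intro m hm
    have h6 := h4 m hm
    rw [hθ] at h6
    rcases mul_eq_zero.1 h6 with h7 | h7
    · exfalso
      rw [Int.cast_eq_zero] at h7
      omega
    · exact h7
  have h6 : ge 1 (θ H) := by
    intro m hm
    rcases (by omega : m < 0 ∨ m = 0) with h7 | h7
    · exact h4 m h7
    · rw [hθ, h7, Int.cast_zero, zero_mul]
  have h7 : ge (f.order + 1) (θ f) := by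
    rw [e1]
    exact (ge_order f).mul (h1.add h6)
  have h8 : f.order = 0 := by
    have h9 := h7 f.order (by omega)
    rw [hθ] at h9
    rcases mul_eq_zero.1 h9 with h10 | h10
    · exact_mod_cast h10
    · exact absurd (HahnSeries.coeff_order_eq_zero.1 h10) hf0
  -- the other coordinates
  have h9 : ∀ i : Fin n, ge 0 (x i.succ) := by
    intro i
    obtain ⟨D, hD⟩ := ldv Λ ((δ i).restrictScalars ℤ)
    have hDδ : ∀ (u : LaurentSeries Λ) (m : ℤ), (D u).coeff m = δ i (u.coeff m) := fun u m => hD u m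
    have hDC : ∀ a : Λ, D (HahnSeries.C a) = HahnSeries.C (δ i a) := by
      intro a
      ext m
      rw [hDδ, HahnSeries.C_apply, HahnSeries.C_apply]
      by_cases hm : m = 0
      · rw [hm, HahnSeries.coeff_single_same, HahnSeries.coeff_single_same]
      · rw [HahnSeries.coeff_single_of_ne hm, HahnSeries.coeff_single_of_ne hm, map_zero]
    have hDE : ∀ a : E, D (HahnSeries.C (algebraMap E Λ a)) = 0 := by
      intro a
      rw [hDC, Derivation.map_algebraMap, map_zero]
    have hDx : D (x 0) = 0 := by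
      rw [hx0, map_add, hDE, zero_add]
      ext m
      rw [hDδ, HahnSeries.coeff_zero]
      by_cases hm : m = M
      · rw [hm, HahnSeries.coeff_single_same, Derivation.map_one_eq_zero]
      · rw [HahnSeries.coeff_single_of_ne hm, map_zero]
    have e2 := hsum D hDE
    have e3 : ∑ j : Fin n, x j.succ * D (HahnSeries.C (ψ j)) = x i.succ := by
      rw [Finset.sum_eq_single i]
      · rw [hDC, hδ, if_pos rfl, map_one, mul_one]
      · intro j _ hji
        rw [hDC, hδ, if_neg (Ne.symm hji), map_zero, mul_zero]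
      · intro hi
        exact absurd (Finset.mem_univ i) hi
    rw [hDx, mul_zero, zero_add, e3] at e2
    have h10 : ge 0 (D f) := by
      intro m hm
      rw [hDδ, HahnSeries.coeff_eq_zero_of_lt_order (by rw [h8]; exact hm), map_zero]
    have h11 : ge 0 (D H) := by
      intro m hm
      rw [hDδ, h5 m hm, map_zero]
    have h12 : ge 0 (f * x i.succ) := by
      have h13 : f * x i.succ = f * D H - D f := by
        rw [e2]
        ring
      rw [h13]
      have h14 : ge (0 + 0) (f * D H) := ((ge_order f).mono (by omega)).mul h11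
      rw [add_zero] at h14
      exact h14.sub h10
    have h15 := h12.cancel hf0
    rwa [h8, sub_zero] at h15
  have h10 : ∀ i, ge 0 (x i) := by
    intro i
    refine Fin.cases ?_ h9 i
    rw [hx0]
    exact (ge_C _).add ((ge_single _ _).mono (by omega))
  have h11 : ∀ p, ge 0 (Φ p) := by
    intro p
    induction p using MvPolynomial.induction_on with
    | C a =>
      rw [hΦ, MvPolynomial.coe_eval₂Hom, MvPolynomial.eval₂_C]
      exact ge_C _
    | add p q hp hq =>
      rw [map_add]
      exact hp.add hq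
    | mul_X p i hp =>
      rw [map_mul]
      have h12 : Φ (MvPolynomial.X i) = x i := by
        rw [hΦ, MvPolynomial.coe_eval₂Hom, MvPolynomial.eval₂_X]
      rw [h12]
      have := hp.mul (h10 i)
      rwa [add_zero] at this
  obtain ⟨F', hF'⟩ := hdvd
  have h12 : f = HahnSeries.single (M : ℤ) 1 * Φ F' := by
    rw [hf, hF', map_mul]
    congr 1
    rw [map_sub, hΦ, MvPolynomial.coe_eval₂Hom, MvPolynomial.eval₂_X, MvPolynomial.eval₂_C, hx0]
    simp
  have h13 : ge (M + 0) f := by
    rw [h12]
    exact (ge_single _ _).mul (h11 F')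
  have h14 := h13.le_order hf0
  omega

end Pool.Agent.CPT.H34
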